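import Pool.Agent.L7h49.PM.Def

set_option autoImplicit false
set_option linter.all false

namespace Pool.Agent.L7h89.PM

open Pool.Agent.L7h49.PM Filter

/-- slope of the ray with parameter `s` -/
noncomputable def tau (s : ℝ) : ℝ := s / √(100 - s ^ 2)

theorem tau_nonneg {s : ℝ} (h0 : 0 ≤ s) : 0 ≤ tau s := div_nonneg h0 (Real.sqrt_nonneg _)

theorem tau_lt {s t : ℝ} (h0 : 0 ≤ s) (hst : s < t) (h1 : t ≤ 1) : tau s < tau t := by
  unfold tau
  have hs : 0 < √(100 - s ^ 2) := Real.sqrt_pos.mpr (by nlinarith)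
  have ht : 0 < √(100 - t ^ 2) := Real.sqrt_pos.mpr (by nlinarith)
  have hle : √(100 - t ^ 2) ≤ √(100 - s ^ 2) := Real.sqrt_le_sqrt (by nlinarith)
  rw [div_lt_div_iff₀ hs ht]
  calc s * √(100 - t ^ 2) ≤ s * √(100 - s ^ 2) := mul_le_mul_of_nonneg_left hle h0
    _ < t * √(100 - s ^ 2) := mul_lt_mul_of_pos_right hst hs

theorem tau_le {s : ℝ} (h0 : 0 ≤ s) (h1 : s ≤ 1) : tau s ≤ 1 / 8 := by
  unfold tau
  have h8 : (8 : ℝ) ≤ √(100 - s ^ 2) := by
    apply Real.le_sqrt_of_sq_le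
    nlinarith
  rw [div_le_iff₀ (by linarith)]
  linarith

theorem exists_int {a : ℕ → ℤ} {b : ℤ} (h : ∀ L, |a L| ≤ b) :
    ∃ m : ℤ, ∀ᶠ L in (hyperfilter ℕ : Filter ℕ), a L = m := by
  have h1 : ∀ᶠ L in (hyperfilter ℕ : Filter ℕ), ∃ m : Set.Icc (-b) b, a L = m.1 := by
    apply Eventually.of_forall
    intro L
    exact ⟨⟨a L, abs_le.mp (h L)⟩, rfl⟩
  obtain ⟨m, hm⟩ := Ultrafilter.eventually_exists_iff.mp h1
  exact ⟨m.1, hm⟩

theorem ev_ge (N : ℕ) : ∀ᶠ L in (hyperfilter ℕ : Filter ℕ), N ≤ L :=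
  (eventually_ge_atTop N).filter_mono Nat.hyperfilter_le_atTop

theorem s_BUS (h1 : S_MON) (h2 : S_LIM) (h3 : S_DISC) : S_BUS := by
  intro V G f C hR hK
  have hC := hR.one
  set H : ℝ := 200 * C with hH
  have hx : ∀ i : ℕ, ∃ x, ‖f x - pt 0 (i * H)‖ < C := fun i => hR.net _
  choose x hx using hx
  have hz : ∀ (L : ℕ) (s : ℝ), ∃ z, ‖f z - pt L (tau s * L)‖ < C := fun L s => hR.net _
  choose z hz using hz
  have tri : ∀ u v w, (G.dist u w : ℤ) ≤ G.dist u v + G.dist v w := by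
    intro u v w
    have := hR.conn.dist_triangle (u := u) (v := v) (w := w)
    exact_mod_cast this
  have hg : ∀ (i : ℕ) (s : ℝ), ∃ m : ℤ, ∀ᶠ L in (hyperfilter ℕ : Filter ℕ),
      (G.dist (x 0) (z L s) : ℤ) - G.dist (x i) (z L s) = m := by
    intro i s
    apply exists_int (b := G.dist (x 0) (x i))
    intro L
    have e1 := tri (x 0) (x i) (z L s)
    have e2 := tri (x i) (x 0) (z L s)
    have e3 : (G.dist (x i) (x 0) : ℤ) = G.dist (x 0) (x i) := by rw [G.dist_comm]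
    rw [abs_le]
    constructor <;> linarith
  choose g hg using hg
  apply h3 g (20 * C) (6 * C + 1) (by linarith)
  · intro n s hs0 hs1
    obtain ⟨N, hN⟩ := exists_nat_ge (2 * (n * H) + (n * H) ^ 2 + 1)
    obtain ⟨L, hL1, hL2⟩ := ((hg n s).and (ev_ge N)).exists
    have hn0 : 0 ≤ (n : ℝ) * H := by positivity
    have hNL : (N : ℝ) ≤ L := by exact_mod_cast hL2
    have hLpos : (0 : ℝ) < L := by nlinarith [sq_nonneg ((n : ℝ) * H)]
    have hlim := h2 (n * H) s L hn0 hs0 hs1 hLpos (by nlinarith [sq_nonneg ((n : ℝ) * H)])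
    have hle : (n * H) ^ 2 / (L : ℝ) ≤ 1 := by
      rw [div_le_one hLpos]
      linarith
    have hn1 := hR.near (x 0) (z L s)
    have hn2 := hR.near (x n) (z L s)
    have hx0 := hx 0
    have hxn := hx n
    have hzz := hz L s
    have e0 : ((0 : ℕ) : ℝ) * H = 0 := by simp
    rw [e0] at hx0
    have ht : tau s * L = s / √(100 - s ^ 2) * L := rfl
    rw [ht] at hzz
    set P0 := pt 0 0
    set Pn := pt 0 (n * H)
    set PL := pt L (s / √(100 - s ^ 2) * L)
    have d1 : |‖f (x 0) - f (z L s)‖ - ‖P0 - PL‖| ≤ ‖f (x 0) - P0‖ + ‖f (z L s) - PL‖ := by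
      calc |‖f (x 0) - f (z L s)‖ - ‖P0 - PL‖| ≤ ‖(f (x 0) - f (z L s)) - (P0 - PL)‖ :=
            abs_norm_sub_norm_le _ _
        _ = ‖(f (x 0) - P0) - (f (z L s) - PL)‖ := by congr 1; abel
        _ ≤ _ := norm_sub_le _ _
    have d2 : |‖f (x n) - f (z L s)‖ - ‖Pn - PL‖| ≤ ‖f (x n) - Pn‖ + ‖f (z L s) - PL‖ := by
      calc |‖f (x n) - f (z L s)‖ - ‖Pn - PL‖| ≤ ‖(f (x n) - f (z L s)) - (Pn - PL)‖ :=
            abs_norm_sub_norm_le _ _
        _ = ‖(f (x n) - Pn) - (f (z L s) - PL)‖ := by congr 1; abel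
        _ ≤ _ := norm_sub_le _ _
    have hgr : (g n s : ℝ) = (G.dist (x 0) (z L s) : ℝ) - G.dist (x n) (z L s) := by
      rw [← hL1]; push_cast; ring
    rw [hgr]
    rw [abs_le] at *
    rw [abs_lt] at hn1 hn2
    constructor
    · linarith [hlim.1, hlim.2, hn1.1, hn1.2, hn2.1, hn2.2, d1.1, d1.2, d2.1, d2.2]
    · linarith [hlim.1, hlim.2, hn1.1, hn1.2, hn2.1, hn2.2, d1.1, d1.2, d2.1, d2.2]
  · intro m n s t hmn hs0 hst ht1
    rcases hmn.eq_or_lt with rfl | hmn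
    · simp
    rcases hst.eq_or_lt with rfl | hst
    · exact le_rfl
    have htau := tau_lt hs0 hst ht1
    obtain ⟨N, hN⟩ := exists_nat_ge (1000 * C + 8 * (n * H) + 200 * C / (tau t - tau s))
    obtain ⟨L, ⟨⟨⟨⟨hL1, hL2⟩, hL3⟩, hL4⟩, hL5⟩⟩ :=
      (((((hg n s).and (hg m s)).and (hg n t)).and (hg m t)).and (ev_ge N)).exists
    have hNL : (N : ℝ) ≤ L := by exact_mod_cast hL5
    have hmn' : (m : ℝ) + 1 ≤ n := by exact_mod_cast hmn
    have hn0 : 0 ≤ (n : ℝ) * H := by positivity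
    have hm0 : 0 ≤ (m : ℝ) * H := by positivity
    have hd : 0 < tau t - tau s := by linarith
    have hq : 0 ≤ 200 * C / (tau t - tau s) := by positivity
    have hL0 : (0 : ℝ) ≤ L := by positivity
    have hgood : Good (L : ℝ) C (m * H) (n * H) (tau s * L) (tau t * L) := by
      refine ⟨hC, by linarith, ?_, ?_, ?_, ?_, ?_, ?_⟩
      · have : ((m : ℝ) + 1) * H ≤ n * H := mul_le_mul_of_nonneg_right hmn' (by positivity)
        rw [hH] at *
        linarith
      · have h5 : 200 * C / (tau t - tau s) ≤ L := by linarith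
        rw [div_le_iff₀ hd] at h5
        nlinarith
      · linarith
      · linarith
      · have := mul_nonneg (tau_nonneg hs0) hL0
        linarith
      · have := mul_le_mul_of_nonneg_right (tau_le (hs0.trans hst.le) ht1) hL0
        linarith
    have hmon := h1 V G f C hR hK L (m * H) (n * H) (tau s * L) (tau t * L) hgood
      (x m) (x n) (z L t) (z L s) (hx m).le (hx n).le (hz L t).le (hz L s).le
    have hmon' : (G.dist (x m) (z L s) : ℤ) + G.dist (x n) (z L t)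
        ≤ G.dist (x m) (z L t) + G.dist (x n) (z L s) := by exact_mod_cast hmon
    linarith

end Pool.Agent.L7h89.PM
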